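import Pool.Agent.helper93.TV.Spec2

/-!
TV, row BD (the flat variety is bounded).
-/

namespace Pool.Agent.helper93.TV

open BigOperators Finset Matrix

theorem BD : BD_stmt := by
  intro I V _ _ _ _ D X m x hx i
  obtain ⟨⟨⟨l, e, e', l'⟩, h⟩, b⟩ := i
  have hconn := hx.conn
  have hrow := hconn.row l e l e h.1.1 h.2.1 h.2.2
  rw [if_pos ⟨rfl, rfl⟩] at hrow
  have hre : ∑ e₁, ∑ l₁, ‖D.cof X x l e e₁ l₁‖ ^ 2 = 1 := by
    have h1 : ∀ e₁ l₁, D.cof X x l e e₁ l₁ * star (D.cof X x l e e₁ l₁) =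
        ((‖D.cof X x l e e₁ l₁‖ ^ 2 : ℝ) : ℂ) := by
      intro e₁ l₁
      rw [Complex.star_def, Complex.mul_conj, Complex.normSq_eq_norm_sq]
    simp only [h1] at hrow
    exact_mod_cast hrow
  have h2 : ‖D.cof X x l e e' l'‖ ^ 2 ≤ 1 := by
    rw [← hre]
    calc ‖D.cof X x l e e' l'‖ ^ 2 ≤ ∑ l₁, ‖D.cof X x l e e' l₁‖ ^ 2 :=
          Finset.single_le_sum (f := fun l₁ => ‖D.cof X x l e e' l₁‖ ^ 2)
            (fun _ _ => by positivity) (mem_univ l')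
      _ ≤ ∑ e₁, ∑ l₁, ‖D.cof X x l e e₁ l₁‖ ^ 2 :=
          Finset.single_le_sum (f := fun e₁ => ∑ l₁, ‖D.cof X x l e e₁ l₁‖ ^ 2)
            (fun _ _ => Finset.sum_nonneg fun _ _ => by positivity) (mem_univ e')
  have h3 : ‖D.cof X x l e e' l'‖ ≤ 1 := by
    nlinarith [norm_nonneg (D.cof X x l e e' l')]
  have h4 : D.cof X x l e e' l' =
      (⟨x (⟨(l, e, e', l'), h⟩, false), x (⟨(l, e, e', l'), h⟩, true)⟩ : ℂ) := by
    unfold FD.cof
    rw [dif_pos h]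
  rw [h4] at h3
  cases b
  · exact (Complex.abs_re_le_norm _).trans h3
  · exact (Complex.abs_im_le_norm _).trans h3

end Pool.Agent.helper93.TV
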