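import Pool.Agent.helper93.TV.Spec3

/-!
TV, row KQ (the number of parameters).
-/

namespace Pool.Agent.helper93.TV

open BigOperators Finset

section

variable {I V : Type} [Fintype I] [DecidableEq I] [Fintype V] [DecidableEq V]

private theorem KQ_A (D : FD I V) (x a y d : I) :
    ((univ : Finset (V × V)).filter fun p => D.s1 p.1 = x ∧ D.s2 p.1 = a ∧ D.t p.1 = D.s1 p.2 ∧
      D.s2 p.2 = y ∧ D.t p.2 = d).card = ∑ b, D.mlt x a b * D.mlt b y d := by
  rw [Finset.card_eq_sum_card_fiberwise (f := fun p : V × V => D.t p.1) (t := univ)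
    (fun _ _ => mem_coe.mpr (mem_univ _))]
  refine Finset.sum_congr rfl fun b _ => ?_
  unfold FD.mlt
  rw [← Finset.card_product]
  congr 1
  ext p
  rw [mem_filter, mem_filter, mem_product, mem_filter, mem_filter]
  constructor
  · rintro ⟨⟨-, h1, h2, h3, h4, h5⟩, h6⟩
    exact ⟨⟨mem_univ _, h1, h2, h6⟩, mem_univ _, by rw [← h3, h6], h4, h5⟩
  · rintro ⟨⟨-, h1, h2, h6⟩, -, h3, h4, h5⟩
    exact ⟨⟨mem_univ _, h1, h2, by rw [h6, h3], h4, h5⟩, h6⟩

private theorem KQ_B (D : FD I V) (x a y d : I) :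
    ((univ : Finset (V × V)).filter fun p => D.s1 p.1 = a ∧ D.s2 p.1 = y ∧ D.t p.1 = D.s2 p.2 ∧
      D.s1 p.2 = x ∧ D.t p.2 = d).card = ∑ f, D.mlt a y f * D.mlt x f d := by
  rw [Finset.card_eq_sum_card_fiberwise (f := fun p : V × V => D.t p.1) (t := univ)
    (fun _ _ => mem_coe.mpr (mem_univ _))]
  refine Finset.sum_congr rfl fun b _ => ?_
  unfold FD.mlt
  rw [← Finset.card_product]
  congr 1
  ext p
  rw [mem_filter, mem_filter, mem_product, mem_filter, mem_filter]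
  constructor
  · rintro ⟨⟨-, h1, h2, h3, h4, h5⟩, h6⟩
    exact ⟨⟨mem_univ _, h1, h2, h6⟩, mem_univ _, h4, by rw [← h3, h6], h5⟩
  · rintro ⟨⟨-, h1, h2, h6⟩, -, h4, h3, h5⟩
    exact ⟨⟨mem_univ _, h1, h2, by rw [h6, h3], h4, h5⟩, h6⟩

end

theorem KQ : KQ_stmt := by
  intro I V _ _ _ _ D X hR
  classical
  have hcard : Fintype.card (D.Q X) = ((univ : Finset (V × V × V × V)).filter fun x =>
      D.cp x.1 x.2.1 x.2.2.1 x.2.2.2 ∧ D.s1 x.1 ∈ X ∧ D.s2 x.2.1 ∈ X).card := by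
    unfold FD.Q
    exact Fintype.card_of_subtype _ (fun x => by rw [mem_filter]; exact ⟨fun h => h.2, fun h => ⟨mem_univ _, h⟩⟩)
  have hkap : Fintype.card (D.Q X) = D.kap X := by
    rw [hcard, Finset.card_eq_sum_card_fiberwise
      (f := fun x : V × V × V × V => (D.s1 x.1, D.s2 x.2.1, D.s2 x.1, D.t x.2.1))
      (t := X ×ˢ X ×ˢ univ ×ˢ univ)]
    · unfold FD.kap
      rw [Finset.sum_product]
      refine Finset.sum_congr rfl fun x hx => ?_
      rw [Finset.sum_product]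
      refine Finset.sum_congr rfl fun y hy => ?_
      rw [Finset.sum_product]
      refine Finset.sum_congr rfl fun a _ => Finset.sum_congr rfl fun d _ => ?_
      rw [sq]
      conv_rhs => rw [← KQ_A]
      conv_rhs =>
        arg 2
        rw [KQ_A, hR.assoc, ← KQ_B]
      rw [← Finset.card_product]
      refine Finset.card_nbij' (fun z => ((z.1, z.2.1), (z.2.2.1, z.2.2.2)))
        (fun z => (z.1.1, z.1.2, z.2.1, z.2.2)) ?_ ?_ ?_ ?_
      · rintro ⟨l, e, e', l'⟩ hz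
        simp only [coe_filter, Set.mem_ofPred_eq, mem_filter, mem_univ, true_and, Prod.mk.injEq,
          FD.cp] at hz
        obtain ⟨⟨⟨c1, c2, c3, c4, c5, c6⟩, -, -⟩, rfl, rfl, rfl, rfl⟩ := hz
        exact mem_coe.mpr (mem_product.mpr ⟨mem_filter.mpr ⟨mem_univ _, rfl, rfl, c1, rfl, rfl⟩,
          mem_filter.mpr ⟨mem_univ _, c4.symm, c5.symm, c2, c3.symm, c6.symm⟩⟩)
      · rintro ⟨⟨l, e⟩, e', l'⟩ hz
        simp only [coe_product, coe_filter, Set.mem_prod, Set.mem_ofPred_eq, mem_univ,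
          true_and] at hz
        obtain ⟨⟨a1, a2, a3, a4, a5⟩, b1, b2, b3, b4, b5⟩ := hz
        simp only [coe_filter, Set.mem_ofPred_eq, mem_filter, mem_univ, true_and, Prod.mk.injEq,
          FD.cp]
        refine ⟨⟨⟨a3, b3, ?_, ?_, ?_, ?_⟩, ?_, ?_⟩, a1, a4, a2, a5⟩
        · rw [a1, b4]
        · rw [a2, b1]
        · rw [a4, b2]
        · rw [a5, b5]
        · rw [a1]; exact hx
        · rw [a4]; exact hy
      · rintro ⟨l, e, e', l'⟩ _
        rfl
      · rintro ⟨⟨l, e⟩, e', l'⟩ _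
        rfl
    · intro z hz
      have hz' := (mem_filter.mp (mem_coe.mp hz)).2
      exact mem_coe.mpr (mem_product.mpr ⟨hz'.2.1, mem_product.mpr ⟨hz'.2.2,
        mem_product.mpr ⟨mem_univ _, mem_univ _⟩⟩⟩)
  refine ⟨hkap, ?_⟩
  rw [← hkap, hcard]
  refine (Finset.card_filter_le _ _).trans (le_of_eq ?_)
  rw [card_univ, Fintype.card_prod, Fintype.card_prod, Fintype.card_prod]
  ring

end Pool.Agent.helper93.TV
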