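import Pool.Agent.helper93.TV.Spec1

/-!
TV, row S1 (left star relation).
-/

namespace Pool.Agent.helper93.TV

open BigOperators Finset Matrix

theorem S1 : S1_stmt := by
  intro I V _ _ _ _ D F h β γ κ δ
  have hsupp := h.uf.conn.supp
  by_cases hc : D.s2 β = D.du (D.s1 κ) ∧ D.s1 β = D.s1 γ ∧ D.t β = D.s1 δ
  · obtain ⟨h1, h2, h3⟩ := hc
    have hcol : ∀ μ ρ, ∑ α, ∑ γ', star (F α γ' (D.eta (D.s2 β)) (D.rho (D.s1 β))) * F α γ' μ ρ =
        if D.eta (D.s2 β) = μ ∧ D.rho (D.s1 β) = ρ then 1 else 0 := fun μ ρ =>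
      h.uf.conn.col _ _ μ ρ (by rw [D.t_eta, D.s2_rho]) (mem_univ _) (mem_univ _)
    have hrow : ∀ α ν, ∑ δ', ∑ ζ, F α ν δ' ζ * star (F β δ δ' ζ) =
        if β = α ∧ δ = ν then 1 else 0 := by
      intro α ν
      by_cases hαν : D.t α = D.s1 ν
      · rw [h.uf.conn.row α ν β δ hαν (mem_univ _) (mem_univ _)]
        by_cases h4 : α = β ∧ ν = δ
        · rw [if_pos h4, if_pos ⟨h4.1.symm, h4.2.symm⟩]
        · rw [if_neg h4, if_neg (fun h5 => h4 ⟨h5.1.symm, h5.2.symm⟩)]
      · rw [if_neg (fun h5 => hαν (by rw [← h5.1, ← h5.2]; exact h3))]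
        refine Finset.sum_eq_zero fun δ' _ => Finset.sum_eq_zero fun ζ _ => ?_
        have : F α ν δ' ζ = 0 := by
          by_contra hne
          exact hαν (hsupp _ _ _ _ hne).1.1
        rw [this, zero_mul]
    have hA : ∀ δ' ζ, ∑ α, ∑ γ', star (F α γ' (D.eta (D.s2 β)) (D.rho (D.s1 β))) *
        ∑ ν, F γ' γ κ ν * F α ν δ' ζ =
        (if γ = ζ then 1 else 0) * F (D.eta (D.s2 β)) (D.lam (D.s2 γ)) κ δ' := by
      intro δ' ζ
      calc ∑ α, ∑ γ', star (F α γ' (D.eta (D.s2 β)) (D.rho (D.s1 β))) *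
            ∑ ν, F γ' γ κ ν * F α ν δ' ζ
          = ∑ α, ∑ γ', ∑ μ, ∑ ρ, (star (F α γ' (D.eta (D.s2 β)) (D.rho (D.s1 β))) * F α γ' μ ρ) *
              ∑ σ, F ρ γ σ ζ * F μ σ κ δ' := by
            refine Finset.sum_congr rfl fun α _ => Finset.sum_congr rfl fun γ' _ => ?_
            rw [h.uf.pent α γ' γ κ δ' ζ, Finset.mul_sum]
            refine Finset.sum_congr rfl fun μ _ => ?_
            rw [Finset.mul_sum]
            refine Finset.sum_congr rfl fun ρ _ => ?_
            rw [Finset.mul_sum, Finset.mul_sum]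
            refine Finset.sum_congr rfl fun σ _ => ?_
            ring
        _ = ∑ μ, ∑ ρ, (∑ α, ∑ γ', star (F α γ' (D.eta (D.s2 β)) (D.rho (D.s1 β))) * F α γ' μ ρ) *
              ∑ σ, F ρ γ σ ζ * F μ σ κ δ' := by
            simp only [Finset.sum_mul]
            calc ∑ α, ∑ γ', ∑ μ, ∑ ρ, (star (F α γ' (D.eta (D.s2 β)) (D.rho (D.s1 β))) *
                  F α γ' μ ρ) * ∑ σ, F ρ γ σ ζ * F μ σ κ δ'
                = ∑ α, ∑ μ, ∑ ρ, ∑ γ', (star (F α γ' (D.eta (D.s2 β)) (D.rho (D.s1 β))) *
                  F α γ' μ ρ) * ∑ σ, F ρ γ σ ζ * F μ σ κ δ' := by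
                  refine Finset.sum_congr rfl fun α _ => ?_
                  rw [Finset.sum_comm]
                  refine Finset.sum_congr rfl fun μ _ => ?_
                  rw [Finset.sum_comm]
              _ = ∑ μ, ∑ ρ, ∑ α, ∑ γ', (star (F α γ' (D.eta (D.s2 β)) (D.rho (D.s1 β))) *
                  F α γ' μ ρ) * ∑ σ, F ρ γ σ ζ * F μ σ κ δ' := by
                  rw [Finset.sum_comm]
                  refine Finset.sum_congr rfl fun μ _ => ?_
                  rw [Finset.sum_comm]
        _ = ∑ μ, ∑ ρ, (if D.eta (D.s2 β) = μ ∧ D.rho (D.s1 β) = ρ then 1 else 0) *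
              ∑ σ, F ρ γ σ ζ * F μ σ κ δ' := by
            refine Finset.sum_congr rfl fun μ _ => Finset.sum_congr rfl fun ρ _ => ?_
            rw [hcol]
        _ = ∑ σ, F (D.rho (D.s1 β)) γ σ ζ * F (D.eta (D.s2 β)) σ κ δ' := by
            rw [Finset.sum_eq_single (D.eta (D.s2 β)), Finset.sum_eq_single (D.rho (D.s1 β))]
            · rw [if_pos ⟨rfl, rfl⟩, one_mul]
            · intro ρ _ hρ
              rw [if_neg (fun h5 => hρ h5.2.symm), zero_mul]
            · intro hn
              exact absurd (mem_univ _) hn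
            · intro μ _ hμ
              refine Finset.sum_eq_zero fun ρ _ => ?_
              rw [if_neg (fun h5 => hμ h5.1.symm), zero_mul]
            · intro hn
              exact absurd (mem_univ _) hn
        _ = (if γ = ζ then 1 else 0) * F (D.eta (D.s2 β)) (D.lam (D.s2 γ)) κ δ' := by
            rw [Finset.sum_eq_single (D.lam (D.s2 γ))]
            · rw [h2, h.tri γ ζ]
            · intro σ _ hσ
              have : F (D.rho (D.s1 β)) γ σ ζ = 0 := by
                by_contra hne
                obtain ⟨-, -, -, h4, h5, -⟩ := (hsupp _ _ _ _ hne).1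
                rw [D.s2_rho] at h4
                apply hσ
                rw [h5]
                exact D.lam_unique σ h4.symm
              rw [this, zero_mul]
            · intro hn
              exact absurd (mem_univ _) hn
    have hL : ∑ δ', ∑ ζ, (∑ α, ∑ γ', star (F α γ' (D.eta (D.s2 β)) (D.rho (D.s1 β))) *
        ∑ ν, F γ' γ κ ν * F α ν δ' ζ) * star (F β δ δ' ζ) =
        ∑ γ', star (F β γ' (D.eta (D.s2 β)) (D.rho (D.s1 β))) * F γ' γ κ δ := by
      calc ∑ δ', ∑ ζ, (∑ α, ∑ γ', star (F α γ' (D.eta (D.s2 β)) (D.rho (D.s1 β))) *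
            ∑ ν, F γ' γ κ ν * F α ν δ' ζ) * star (F β δ δ' ζ)
          = ∑ δ', ∑ ζ, ∑ α, ∑ γ', ∑ ν, (star (F α γ' (D.eta (D.s2 β)) (D.rho (D.s1 β))) *
              F γ' γ κ ν) * (F α ν δ' ζ * star (F β δ δ' ζ)) := by
            refine Finset.sum_congr rfl fun δ' _ => Finset.sum_congr rfl fun ζ _ => ?_
            rw [Finset.sum_mul]
            refine Finset.sum_congr rfl fun α _ => ?_
            rw [Finset.sum_mul]
            refine Finset.sum_congr rfl fun γ' _ => ?_
            rw [Finset.mul_sum, Finset.sum_mul]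
            refine Finset.sum_congr rfl fun ν _ => ?_
            ring
        _ = ∑ α, ∑ γ', ∑ ν, ∑ δ', ∑ ζ, (star (F α γ' (D.eta (D.s2 β)) (D.rho (D.s1 β))) *
              F γ' γ κ ν) * (F α ν δ' ζ * star (F β δ δ' ζ)) := by
            calc _ = ∑ δ', ∑ α, ∑ γ', ∑ ν, ∑ ζ, (star (F α γ' (D.eta (D.s2 β)) (D.rho (D.s1 β))) *
                    F γ' γ κ ν) * (F α ν δ' ζ * star (F β δ δ' ζ)) := by
                  refine Finset.sum_congr rfl fun δ' _ => ?_
                  rw [Finset.sum_comm]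
                  refine Finset.sum_congr rfl fun α _ => ?_
                  rw [Finset.sum_comm]
                  refine Finset.sum_congr rfl fun γ' _ => ?_
                  rw [Finset.sum_comm]
              _ = _ := by
                  rw [Finset.sum_comm]
                  refine Finset.sum_congr rfl fun α _ => ?_
                  rw [Finset.sum_comm]
                  refine Finset.sum_congr rfl fun γ' _ => ?_
                  rw [Finset.sum_comm]
        _ = ∑ α, ∑ γ', ∑ ν, (star (F α γ' (D.eta (D.s2 β)) (D.rho (D.s1 β))) *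
              F γ' γ κ ν) * (if β = α ∧ δ = ν then 1 else 0) := by
            refine Finset.sum_congr rfl fun α _ => Finset.sum_congr rfl fun γ' _ =>
              Finset.sum_congr rfl fun ν _ => ?_
            rw [← hrow α ν, Finset.mul_sum]
            refine Finset.sum_congr rfl fun δ' _ => ?_
            rw [Finset.mul_sum]
        _ = ∑ γ', star (F β γ' (D.eta (D.s2 β)) (D.rho (D.s1 β))) * F γ' γ κ δ := by
            rw [Finset.sum_eq_single β]
            · refine Finset.sum_congr rfl fun γ' _ => ?_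
              rw [Finset.sum_eq_single δ]
              · rw [if_pos ⟨rfl, rfl⟩, mul_one]
              · intro ν _ hν
                rw [if_neg (fun h5 => hν h5.2.symm), mul_zero]
              · intro hn
                exact absurd (mem_univ _) hn
            · intro α _ hα
              refine Finset.sum_eq_zero fun γ' _ => Finset.sum_eq_zero fun ν _ => ?_
              rw [if_neg (fun h5 => hα h5.1.symm), mul_zero]
            · intro hn
              exact absurd (mem_univ _) hn
    have hs2 : ∀ κ', F (D.eta (D.s2 β)) (D.lam (D.s2 γ)) κ κ' * star (F β δ κ' γ) =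
        D.Cm F κ κ' * star (F β δ κ' γ) := by
      intro κ'
      unfold FD.Cm
      rw [← h1]
      by_cases h4 : D.s2 γ = D.s2 κ
      · rw [h4]
      · have h5 : F (D.eta (D.s2 β)) (D.lam (D.s2 γ)) κ κ' = 0 := by
          by_contra hne
          have := (hsupp _ _ _ _ hne).1.2.2.2.2.1
          rw [D.s2_lam] at this
          exact h4 this
        have h6 : F (D.eta (D.s2 β)) (D.lam (D.s2 κ)) κ κ' * star (F β δ κ' γ) = 0 := by
          by_contra hne
          have h7 : F (D.eta (D.s2 β)) (D.lam (D.s2 κ)) κ κ' ≠ 0 := fun h => hne (by rw [h, zero_mul])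
          have h8 : F β δ κ' γ ≠ 0 := fun h => hne (by rw [h, star_zero, mul_zero])
          have h9 := (hsupp _ _ _ _ h7).1.2.2.2.2.2
          have h10 := (hsupp _ _ _ _ h8).1.2.1
          rw [D.t_lam] at h9
          exact h4 (by rw [← h10, ← h9])
        rw [h5, h6, zero_mul]
    show ∑ α, star (F β α (D.eta (D.s2 β)) (D.rho (D.s1 β))) * F α γ κ δ = _
    rw [← hL]
    refine Finset.sum_congr rfl fun κ' _ => ?_
    rw [← hs2, Finset.sum_eq_single γ]
    · rw [hA, if_pos rfl, one_mul]
    · intro ζ _ hζ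
      rw [hA, if_neg (fun h5 => hζ h5.symm), zero_mul, zero_mul]
    · intro hn
      exact absurd (mem_univ _) hn
  · rw [Finset.sum_eq_zero, Finset.sum_eq_zero]
    · intro κ' _
      by_contra hne
      have h7 : F (D.eta (D.du (D.s1 κ))) (D.lam (D.s2 κ)) κ κ' ≠ 0 :=
        fun h => hne (by unfold FD.Cm; rw [h, zero_mul])
      have h8 : F β δ κ' γ ≠ 0 := fun h => hne (by rw [h, star_zero, mul_zero])
      obtain ⟨-, -, h9, -, -, -⟩ := (hsupp _ _ _ _ h7).1
      obtain ⟨h10, -, h11, h12, -, -⟩ := (hsupp _ _ _ _ h8).1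
      rw [D.s1_eta] at h9
      exact hc ⟨by rw [h12, h9], h11, h10⟩
    · intro α _
      by_contra hne
      have h7 : F β α (D.eta (D.s2 β)) (D.rho (D.s1 β)) ≠ 0 :=
        fun h => hne (by unfold FD.Bm; rw [h, star_zero, zero_mul])
      have h8 : F α γ κ δ ≠ 0 := fun h => hne (by rw [h, mul_zero])
      obtain ⟨h9, -, -, -, h10, h11⟩ := (hsupp _ _ _ _ h7).1
      obtain ⟨h12, -, h13, h14, -, -⟩ := (hsupp _ _ _ _ h8).1
      rw [D.s2_eta] at h10
      rw [D.t_rho] at h11
      refine hc ⟨?_, ?_, ?_⟩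
      · rw [← h14, h10, D.du_du]
      · rw [← h11, h12]
      · rw [h9, h13]

end Pool.Agent.helper93.TV
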